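import Pool.Agent.Helper22.TL.Spec

set_option autoImplicit false

namespace TL

open Set

theorem act_thm (hG : S_GLOB) (hD1 : S_DIM1) (hD : S_DIM) : S_ACT := by
  intro d 𝒯 hd hL
  obtain ⟨g1, g2, g3, g4, g5, g6, g7⟩ := hG d 𝒯 hL
  have hd1 := hD1 d 𝒯 hL
  obtain ⟨-, hrk, -⟩ := hD d 𝒯 hL
  have : Nonempty (Fin d) := ⟨⟨0, by omega⟩⟩
  have : Nontrivial (E d) := inferInstance
  have : NoncompactSpace (E d) := NormedSpace.noncompactSpace ℝ (E d)
  have huniv : ∀ F, Fc 𝒯 F → F ≠ univ := by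
    intro F hF h
    have := (g4 F hF).1
    rw [h] at this
    exact noncompact_univ (E d) this
  obtain ⟨T0, hT0, -⟩ := hL.cover 0
  let bt : FP 𝒯 := ⟨∅, Or.inr ⟨T0, hT0, ⟨empty_subset _, fun x _ y _ z hz => absurd hz (notMem_empty _)⟩,
    convex_empty⟩⟩
  let tp : FP 𝒯 := ⟨univ, Or.inl rfl⟩
  have hbt : ∀ x : FP 𝒯, bt ≤ x := fun x => empty_subset _
  have htp : ∀ x : FP 𝒯, x ≤ tp := fun x => subset_univ _
  have ebt : ∀ e : Au 𝒯, e bt = bt := by
    intro e
    apply le_antisymm _ (hbt _)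
    have := e.monotone (hbt (e.symm bt))
    simpa using this
  have etp : ∀ e : Au 𝒯, e tp = tp := by
    intro e
    apply le_antisymm (htp _)
    have := e.monotone (htp (e.symm tp))
    simpa using this
  have hFc : ∀ x : FP 𝒯, x.1 ≠ ∅ → x.1 ≠ univ → Fc 𝒯 x.1 := by
    intro x h1 h2
    refine ⟨nonempty_iff_ne_empty.2 h1, ?_⟩
    rcases x.2 with h | h
    · exact absurd h h2
    · exact h
  have hact : ∀ (e : Au 𝒯) (Φ : Flg 𝒯), ∃ Ψ : Flg 𝒯, ∀ i, e (Φ.el i) = Ψ.el i := by
    intro e Φ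
    refine ⟨⟨fun i => (e (Φ.el i)).1, fun i => hFc _ ?_ ?_, ?_⟩, fun i => rfl⟩
    · intro h
      have h1 : e (Φ.el i) = bt := Subtype.ext h
      rw [← ebt e] at h1
      have h2 := congrArg Subtype.val (e.injective h1)
      exact (Φ.fc i).1.ne_empty h2
    · intro h
      have h1 : e (Φ.el i) = tp := Subtype.ext h
      rw [← etp e] at h1
      have h2 := congrArg Subtype.val (e.injective h1)
      exact huniv _ (Φ.fc i) h2
    · intro i j hij
      have h1 : Φ.el i < Φ.el j := Φ.mono hij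
      have h2 := e.strictMono h1
      exact h2
  have hmax : ∀ Φ : Flg 𝒯,
      IsMaxChain (· ≤ ·) {x : FP 𝒯 | x.1 = ∅ ∨ x.1 = univ ∨ ∃ i, x = Φ.el i} := by
    intro Φ
    constructor
    · rintro x hx y hy -
      rcases hx with hx | hx | ⟨i, rfl⟩
      · left
        have : x = bt := Subtype.ext hx
        rw [this]; exact hbt y
      · right
        have : x = tp := Subtype.ext hx
        rw [this]; exact htp y
      · rcases hy with hy | hy | ⟨j, rfl⟩
        · right
          have : y = bt := Subtype.ext hy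
          rw [this]; exact hbt _
        · left
          have : y = tp := Subtype.ext hy
          rw [this]; exact htp _
        · rcases le_total i j with h | h
          · left; exact Φ.mono.monotone h
          · right; exact Φ.mono.monotone h
    · intro t ht hst
      apply Subset.antisymm hst
      intro x hx
      by_cases h1 : x.1 = ∅
      · exact Or.inl h1
      by_cases h2 : x.1 = univ
      · exact Or.inr (Or.inl h2)
      right; right
      have hf := hFc x h1 h2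
      have hk : Module.finrank ℝ (vectorSpan ℝ x.1) ≤ d := by
        have := Submodule.finrank_le (vectorSpan ℝ x.1)
        simpa using this
      obtain ⟨k, hkd⟩ : ∃ k : Fin (d + 1), (k : ℕ) = Module.finrank ℝ (vectorSpan ℝ x.1) :=
        ⟨⟨_, Nat.lt_succ_of_le hk⟩, rfl⟩
      refine ⟨k, ?_⟩
      by_contra hne
      have hkm : Φ.el k ∈ t := hst (Or.inr (Or.inr ⟨k, rfl⟩))
      have hne' : x.1 ≠ Φ.F k := fun h => hne (Subtype.ext h)
      have hr := hrk Φ k
      rcases ht hx hkm hne with h | h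
      · have hs : x.1 ⊂ Φ.F k := lt_of_le_of_ne (show x.1 ≤ Φ.F k from h) hne'
        have := (hd1 _ _ hf (Φ.fc k) hs).2
        omega
      · have hs : Φ.F k ⊂ x.1 := lt_of_le_of_ne (show Φ.F k ≤ x.1 from h) hne'.symm
        have := (hd1 _ _ (Φ.fc k) hf hs).2
        omega
  refine ⟨hact, hmax, ?_⟩
  intro hC Φ Ψ
  obtain ⟨e, he⟩ := hC _ _ (hmax Φ) (hmax Ψ)
  refine ⟨e, fun i => ?_⟩
  obtain ⟨Ψ', hΨ'⟩ := hact e Φ
  have hm : e (Φ.el i) ∈ {x : FP 𝒯 | x.1 = ∅ ∨ x.1 = univ ∨ ∃ i, x = Ψ.el i} := by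
    rw [← he]
    exact mem_image_of_mem _ (Or.inr (Or.inr ⟨i, rfl⟩))
  rw [hΨ' i] at hm ⊢
  rcases hm with h | h | ⟨j, hj⟩
  · exact absurd h (Ψ'.fc i).1.ne_empty
  · exact absurd h (huniv _ (Ψ'.fc i))
  · have h1 : Ψ'.F i = Ψ.F j := congrArg Subtype.val hj
    have h2 := hrk Ψ' i
    have h3 := hrk Ψ j
    rw [h1, h3] at h2
    have : i = j := Fin.ext (by exact_mod_cast h2.symm)
    rw [hj, this]

end TL

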